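import Pool.Agent.H18.EDB.Targets2
import Pool.Agent.H2.ED.Rec1
import Pool.Agent.H11.TX.PDA
import Pool.Agent.H8.TD.All

/-!
# Row EQN: the equation of a linear form over the coordinates of an iterate, dimension `ν`
-/

set_option autoImplicit false

open MvPolynomial
open Pool.Agent.H12.ZD (pmap)
open Pool.Agent.H18.HIT Pool.Agent.H18.HX Pool.Agent.H18.VZ
open Pool.Agent.H8.ZA (HFam Const NA)
open Pool.Agent.H8.TD (lc dg Wsp Cop dh lc_single lc_map lc_iterate)
open Pool.Agent.H2.ED
open Pool.Agent.H18.EDB

namespace Pool.Agent.H1.EDB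

section gen

variable {k K : Type} [Field k] [Field K] [Algebra k K]

/-- a polynomial in the first variable -/
theorem aeval_fin {N r : ℕ} (φ : Fin (N + 1) → K) (q : Po (N + 1) k)
    (hr : (finSuccEquiv k N q).natDegree ≤ r) :
    aeval φ q = ∑ j ∈ Finset.range (r + 1),
      aeval (fun i : Fin N => φ i.succ) ((finSuccEquiv k N q).coeff j) * φ 0 ^ j := by
  have h1 : ∀ q : Po (N + 1) k, aeval φ q = Polynomial.eval₂
      (aeval (fun i : Fin N => φ i.succ) : Po N k →ₐ[k] K).toRingHom (φ 0)
      (finSuccEquiv k N q) := by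
    intro q
    induction q using MvPolynomial.induction_on with
    | C a =>
      have h1 : finSuccEquiv k N (C a) = Polynomial.C (C a) := by
        rw [finSuccEquiv_apply, eval₂Hom_C]
        rfl
      rw [h1, Polynomial.eval₂_C, aeval_C]
      exact (aeval_C (R := k) (fun i : Fin N => φ i.succ) a).symm
    | add p q hp hq => rw [map_add, map_add, Polynomial.eval₂_add, hp, hq]
    | mul_X p i hp =>
      rw [map_mul, map_mul, Polynomial.eval₂_mul, hp, aeval_X]
      congr 1
      refine Fin.cases ?_ (fun j => ?_) i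
      · rw [finSuccEquiv_X_zero, Polynomial.eval₂_X]
      · rw [finSuccEquiv_X_succ, Polynomial.eval₂_C]
        exact (aeval_X (R := k) (fun i : Fin N => φ i.succ) j).symm
  rw [h1, Polynomial.eval₂_eq_sum_range' _ (Nat.lt_succ_of_le hr)]
  rfl

/-- the value of a form at the first coordinate vector -/
theorem eval_e0 {N r : ℕ} {q : Po (N + 1) k} (hq : q.IsHomogeneous r) :
    eval (Fin.cons 1 0 : Fin (N + 1) → k) q =
      eval (0 : Fin N → k) ((finSuccEquiv k N q).coeff r) := by
  have h0 : (finSuccEquiv k N q).natDegree ≤ r := by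
    rw [natDegree_finSuccEquiv]
    exact (degreeOf_le_totalDegree q 0).trans hq.totalDegree_le
  have h1 := aeval_fin (K := k) (Fin.cons 1 0 : Fin (N + 1) → k) q h0
  rw [Finset.sum_range_succ, Finset.sum_eq_zero, zero_add] at h1
  · rw [Fin.cons_zero, one_pow, mul_one] at h1
    exact h1
  · intro j hj
    have hj' := Finset.mem_range.1 hj
    have h2 : ((finSuccEquiv k N q).coeff j).IsHomogeneous (r - j) :=
      hq.finSuccEquiv_coeff_isHomogeneous j (r - j) (by omega)
    have h3 := Pool.Agent.H8.TD.eval_smul h2 (0 : k) (0 : Fin N → k)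
    rw [zero_pow (by omega), zero_mul] at h3
    have h4 : (fun i : Fin N => (0 : k) * (0 : Fin N → k) i) = 0 := by
      funext i
      exact zero_mul _
    rw [h4] at h3
    have h5 : aeval (fun i : Fin N => (Fin.cons 1 0 : Fin (N + 1) → k) i.succ)
        ((finSuccEquiv k N q).coeff j) = 0 := h3
    rw [h5, zero_mul]

theorem alg_monoN {E E' : IntermediateField k K} (h : E ≤ E') (hE : Algebra.IsAlgebraic E K) :
    Algebra.IsAlgebraic E' K := by
  let : Algebra E E' := (IntermediateField.inclusion h).toRingHom.toAlgebra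
  have : IsScalarTower E E' K := IsScalarTower.of_algebraMap_eq fun _ => rfl
  exact ⟨fun x => (hE.isAlgebraic x).extendScalars (S := E')
    (IntermediateField.inclusion h).toRingHom.injective⟩

/-- the field is algebraic over the image of an endomorphism -/
theorem alg_rangeN {n : ℕ} (htr : Algebra.trdeg k K = n) (f : K →ₐ[k] K) :
    Algebra.IsAlgebraic f.fieldRange K := by
  obtain ⟨s, hs⟩ := exists_isTranscendenceBasis' k K
  have hcard : Cardinal.mk s = n := by
    rw [← htr]
    exact hs.choose_spec.cardinalMk_eq_trdeg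
  obtain ⟨x, hx⟩ := hs
  have hfin : Finite s := by
    rw [← Cardinal.lt_aleph0_iff_finite, hcard]
    exact Cardinal.natCast_lt_aleph0
  have h1 : AlgebraicIndependent k (f ∘ x) := hx.1.map' f.toRingHom.injective
  have h2 : IsTranscendenceBasis k (f ∘ x) := by
    apply h1.isTranscendenceBasis_of_trdeg_le_of_finite
    rw [htr, hcard]
  have h3 := h2.isAlgebraic_field
  refine alg_monoN ?_ h3
  rw [IntermediateField.adjoin_le_iff]
  rintro _ ⟨i, rfl⟩
  exact ⟨x i, rfl⟩

/-- constants do not change the intersection numbers -/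
theorem dg_addN (x : K) (S : Set K) (c : k) :
    dg k (insert (algebraMap k K c + x) S) = dg k (insert x S) := by
  have h1 : ∀ (x : K) (c : k), IntermediateField.adjoin k (insert (algebraMap k K c + x) S) ≤
      IntermediateField.adjoin k (insert x S) := by
    intro x c
    rw [IntermediateField.adjoin_le_iff]
    rintro y (rfl | hy)
    · exact add_mem (IntermediateField.algebraMap_mem _ _)
        (IntermediateField.subset_adjoin _ _ (Or.inl rfl))
    · exact IntermediateField.subset_adjoin _ _ (Or.inr hy)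
  have h2 : IntermediateField.adjoin k (insert (algebraMap k K c + x) S) =
      IntermediateField.adjoin k (insert x S) := by
    apply le_antisymm (h1 x c)
    have h3 := h1 (algebraMap k K c + x) (-c)
    rw [map_neg, neg_add_cancel_left] at h3
    exact h3
  unfold dg
  rw [h2]

theorem not_algN {n : ℕ} (htr : Algebra.trdeg k K = (n + 1 : ℕ)) (B : Fin n → K)
    (h : Algebra.IsAlgebraic (IntermediateField.adjoin k (Set.range B)) K) : False := by
  have h1 := Pool.Agent.H14.TD.alg_trans (Set.range B) B h (fun i =>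
    isAlgebraic_algebraMap
      (⟨_, Algebra.subset_adjoin ⟨i, rfl⟩⟩ : Algebra.adjoin k (Set.range B)))
  have h2 := Algebra.IsAlgebraic.trdeg_le_cardinalMk k (Set.range B)
  have h3 := h2.trans Cardinal.mk_range_le
  rw [htr, Cardinal.mk_fin] at h3
  have h4 : n + 1 ≤ n := by exact_mod_cast h3
  omega

theorem tdeg_map {σ R S : Type} [CommRing R] [CommRing S] (f : R →+* S)
    (p : MvPolynomial σ R) : (MvPolynomial.map f p).totalDegree ≤ p.totalDegree := by
  classical
  exact Finset.sup_mono (MvPolynomial.support_map_subset f p)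

/-- the degree of an algebraic function of `φ`, in any dimension -/
theorem inx [CharZero k] {n a : ℕ} (φ : Fin a → K) (B : Fin n → K) (z : K) (δ Y m : ℕ)
    (Cf : ℕ → MvPolynomial (Fin a) k) (htr : Algebra.trdeg k K = (n + 1 : ℕ))
    (hBd : ∀ s : Fin a → k, dg k (insert (lc s φ) (Set.range B)) ≤ Y)
    (hdeg : ∀ j, (Cf j).totalDegree ≤ δ) (hn : aeval φ (Cf m) ≠ 0)
    (hsum : ∑ j ∈ Finset.range (m + 1), aeval φ (Cf j) * z ^ j = 0) :
    dg k (insert z (Set.range B)) ≤ δ * Y := by
  obtain ⟨κ, hκ⟩ : ∃ κ, κ = IntermediateField.adjoin k (Set.range B) := ⟨_, rfl⟩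
  have hins : ∀ c : K, dg k (insert c (Set.range B)) = dg κ {c} := by
    intro c
    rw [hκ]
    exact (Pool.Agent.H8.TD.Al.adj k K (Set.range B) c).symm
  rw [hins]
  by_cases hy : ∃ y : K, FiniteDimensional (IntermediateField.adjoin κ {y}) K
  · have ht : ∃ y : K, Transcendental κ y := by
      by_contra hcon
      push Not at hcon
      refine not_algN htr B ⟨fun x => ?_⟩
      have := hcon x
      unfold Transcendental at this
      push Not at this
      rw [hκ] at this
      exact this
    have hch : CharZero κ := charZero_of_injective_algebraMap (algebraMap k κ).injective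
    refine Pool.Agent.H11.TX.pf_PDA Pool.Agent.H8.TD.Al.low Pool.Agent.H8.TD.Al.clz
      k κ K a φ z Y δ m (fun j => MvPolynomial.map (algebraMap k κ) (Cf j)) hy ht
      (fun s => ?_) (fun j => ?_) ?_ ?_
    · rw [← hins]
      exact hBd s
    · exact (tdeg_map _ _).trans (hdeg j)
    · rw [MvPolynomial.aeval_map_algebraMap]
      exact hn
    · simp only [MvPolynomial.aeval_map_algebraMap]
      exact hsum
  · have h1 : ¬ Module.Finite (IntermediateField.adjoin κ {z}) K := fun h => hy ⟨_, h⟩
    have h2 : dg κ {z} = 0 := by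
      unfold dg
      exact Module.finrank_of_not_finite h1
    rw [h2]
    exact Nat.zero_le _

end gen

section alg

variable {ν : ℕ} {k K : Type} [Field k] [Field K] [Algebra k K] {P : Po (ν + 2) k}
  {ξ : Fin (ν + 2) → K} {r : ℕ}

/-- the degree in the first variable -/
theorem nat_le {N r : ℕ} {q : Po (N + 1) k} (hq : q.IsHomogeneous r) :
    (finSuccEquiv k N q).natDegree ≤ r := by
  rw [natDegree_finSuccEquiv]
  exact (degreeOf_le_totalDegree q 0).trans hq.totalDegree_le

/-- the first coordinate is algebraic over the other ones -/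
theorem fst_deg {L : Type} [Field L] [Algebra k L] {r : ℕ} (hP : Hyp P r) (φ : Fin (ν + 2) → L)
    (hφP : aeval φ P = 0) (E : IntermediateField k L) (hE : ∀ i : Fin (ν + 1), φ i.succ ∈ E) :
    ∃ Q : Polynomial E, Q.Monic ∧ Q.natDegree ≤ r ∧ Polynomial.aeval (φ 0) Q = 0 := by
  let c : Po (ν + 1) k →ₐ[k] E := aeval fun i : Fin (ν + 1) => (⟨φ i.succ, hE i⟩ : E)
  have hc : ∀ q : Po (ν + 1) k, ((c q : E) : L) = aeval (fun i : Fin (ν + 1) => φ i.succ) q := by
    intro q
    have h1 : (E.val.comp c) = aeval (fun i : Fin (ν + 1) => φ i.succ) := by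
      apply algHom_ext
      intro i
      rw [AlgHom.comp_apply]
      have h2 : c (X i) = (⟨φ i.succ, hE i⟩ : E) := aeval_X _ i
      rw [h2, aeval_X]
      rfl
    exact DFunLike.congr_fun h1 q
  refine ⟨(finSuccEquiv k (ν + 1) P).map (c : Po (ν + 1) k →+* E),
    Polynomial.Monic.map _ hP.mon, ?_, ?_⟩
  · exact Polynomial.natDegree_map_le.trans (nat_le hP.hom)
  · rw [Polynomial.aeval_def, Polynomial.eval₂_map, Polynomial.eval₂_eq_sum_range, ← hφP,
      aeval_fin φ P le_rfl]
    refine Finset.sum_congr rfl fun j _ => ?_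
    congr 1
    exact hc _

/-- the field is algebraic over the functions of the last coordinates of a dominant image -/
theorem alg_muN (hG : Gp P ξ) (hP : Hyp P r) (f : K →ₐ[k] K) :
    Algebra.IsAlgebraic (IntermediateField.adjoin k
      (Set.range fun i : Fin ν => f (ξ i.succ.succ))) K := by
  obtain ⟨E₀, hE₀⟩ : ∃ E₀ : IntermediateField k K, E₀ = IntermediateField.adjoin k
    (Set.range fun i : Fin ν => f (ξ i.succ.succ)) := ⟨_, rfl⟩
  rw [← hE₀]
  have hmem : ∀ i : Fin ν, f (ξ i.succ.succ) ∈ E₀ := fun i => by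
    rw [hE₀]
    exact IntermediateField.subset_adjoin _ _ ⟨i, rfl⟩
  have hmem' : ∀ i : Fin (ν + 1), f (ξ i.succ) ∈ E₀ := by
    intro i
    refine Fin.cases ?_ (fun j => hmem j) i
    have h1 : ξ (Fin.succ 0) = 1 := hG.one
    rw [h1, map_one]
    exact one_mem E₀
  have hint : IsIntegral E₀ (f (ξ 0)) := by
    obtain ⟨Q, hQ, -, hQ0⟩ := fst_deg hP (fun i => f (ξ i)) (by
      have h1 : aeval (fun i => f (ξ i)) P = f (aeval ξ P) := by
        rw [← AlgHom.comp_apply, comp_aeval]
      rw [h1, aeval_P hG hP, map_zero]) E₀ hmem'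
    exact ⟨Q, hQ, hQ0⟩
  have hall : ∀ i, f (ξ i) ∈ (algebraicClosure E₀ K).restrictScalars k := by
    intro i
    rw [IntermediateField.mem_restrictScalars, mem_algebraicClosure_iff]
    refine Fin.cases ?_ (fun j => ?_) i
    · exact hint.isAlgebraic
    · exact isAlgebraic_algebraMap (⟨_, hmem' j⟩ : E₀)
  have hle : f.fieldRange ≤ (algebraicClosure E₀ K).restrictScalars k := by
    have h1 : f.fieldRange = IntermediateField.adjoin k (Set.range fun i => f (ξ i)) := by
      have h2 : (Set.range fun i => f (ξ i)) = f '' Set.range ξ := by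
        rw [← Set.range_comp]
        rfl
      rw [h2, ← IntermediateField.adjoin_map, hG.top]
      exact AlgHom.fieldRange_eq_map f
    rw [h1, IntermediateField.adjoin_le_iff]
    rintro _ ⟨i, rfl⟩
    exact hall i
  have h3 : Algebra.IsAlgebraic ((algebraicClosure E₀ K).restrictScalars k) K :=
    alg_monoN hle (alg_rangeN hG.trd f)
  have h4 : Algebra.IsAlgebraic (algebraicClosure E₀ K) K := ⟨fun x => h3.isAlgebraic x⟩
  exact Algebra.IsAlgebraic.trans E₀ (algebraicClosure E₀ K) K

/-- the degree of the field over the functions of the last coordinates -/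
theorem dg_last (hG : Gp P ξ) (hP : Hyp P r) :
    dg k (Set.range fun i : Fin ν => ξ i.succ.succ) ≤ r := by
  obtain ⟨E, hE⟩ : ∃ E : IntermediateField k K, E = IntermediateField.adjoin k
    (Set.range fun i : Fin ν => ξ i.succ.succ) := ⟨_, rfl⟩
  have hmem : ∀ i : Fin (ν + 1), ξ i.succ ∈ E := by
    intro i
    refine Fin.cases ?_ (fun j => ?_) i
    · have h1 : ξ (Fin.succ 0) = 1 := hG.one
      rw [h1]
      exact one_mem E
    · rw [hE]
      exact IntermediateField.subset_adjoin _ _ ⟨j, rfl⟩
  obtain ⟨Q, hQ, hQr, hQ0⟩ := fst_deg hP ξ (aeval_P hG hP) E hmem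
  have hint : IsIntegral E (ξ 0) := ⟨Q, hQ, hQ0⟩
  have htop : IntermediateField.adjoin E {ξ 0} = ⊤ := by
    rw [eq_top_iff]
    intro z _
    have h1 : IntermediateField.adjoin k (Set.range ξ) ≤
        (IntermediateField.adjoin E {ξ 0}).restrictScalars k := by
      rw [IntermediateField.adjoin_le_iff]
      rintro _ ⟨i, rfl⟩
      refine Fin.cases ?_ (fun j => ?_) i
      · exact IntermediateField.subset_adjoin E {ξ 0} rfl
      · exact (IntermediateField.adjoin E {ξ 0}).algebraMap_mem ⟨_, hmem j⟩
    rw [hG.top] at h1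
    exact h1 (IntermediateField.mem_top (x := z))
  have h2 : Module.finrank E (IntermediateField.adjoin E {ξ 0}) = (minpoly E (ξ 0)).natDegree :=
    IntermediateField.adjoin.finrank hint
  rw [htop, IntermediateField.finrank_top'] at h2
  have h3 : (minpoly E (ξ 0)).natDegree ≤ Q.natDegree :=
    Polynomial.natDegree_le_natDegree (minpoly.min E (ξ 0) hQ hQ0)
  unfold dg
  rw [← hE]
  omega

/-- a linear form in all coordinates as an algebraic function of the last ones -/
theorem lin_bound [CharZero k] (hP : Hyp P r) (hr : 1 ≤ r) (φ : Fin (ν + 2) → K) (hφ1 : φ 1 = 1)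
    (hφP : aeval φ P = 0) {n : ℕ} (htr : Algebra.trdeg k K = (n + 1 : ℕ)) (B : Fin n → K) (M : ℕ)
    (hB : ∀ u : Fin ν → k, dg k (insert (lc u fun i : Fin ν => φ i.succ.succ) (Set.range B)) ≤ M)
    (s : Fin (ν + 2) → k) : dg k (insert (lc s φ) (Set.range B)) ≤ r * M := by
  have hB' : ∀ u : Fin (ν + 1) → k,
      dg k (insert (lc u fun i : Fin (ν + 1) => φ i.succ) (Set.range B)) ≤ M := by
    intro u
    have h5 : lc u (fun i : Fin (ν + 1) => φ i.succ) = algebraMap k K (u 0) +
        lc (fun i : Fin ν => u i.succ) (fun i : Fin ν => φ i.succ.succ) := by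
      rw [lc, Fin.sum_univ_succ, lc]
      have h6 : φ (Fin.succ 0) = 1 := hφ1
      rw [h6, Algebra.smul_def, mul_one]
    rw [h5, dg_addN]
    exact hB _
  have hs : lc s φ = s 0 • φ 0 + lc (fun i : Fin (ν + 1) => s i.succ)
      (fun i : Fin (ν + 1) => φ i.succ) := by
    rw [lc, Fin.sum_univ_succ, lc]
  rcases eq_or_ne (s 0) 0 with h0 | h0
  · rw [hs, h0, zero_smul, zero_add]
    exact (hB' _).trans (Nat.le_mul_of_pos_left _ hr)
  · obtain ⟨t, ht⟩ : ∃ t : Fin (ν + 2) → Po (ν + 2) k, t = Fin.cons
        (C (s 0)⁻¹ * (X 0 - ∑ i : Fin (ν + 1), C (s i.succ) * X i.succ))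
        (fun i : Fin (ν + 1) => X i.succ) := ⟨_, rfl⟩
    have ht0 : t 0 = C (s 0)⁻¹ * (X 0 - ∑ i : Fin (ν + 1), C (s i.succ) * X i.succ) := by
      rw [ht, Fin.cons_zero]
    have hts : ∀ i : Fin (ν + 1), t i.succ = X i.succ := by
      intro i
      rw [ht, Fin.cons_succ]
    have hlin : ∀ (c : k) (i : Fin (ν + 2)), (C c * X i : Po (ν + 2) k).IsHomogeneous 1 := by
      intro c i
      have h1 := (isHomogeneous_C (Fin (ν + 2)) c).mul (isHomogeneous_X k i)
      rwa [zero_add] at h1
    have htH : ∀ i, (t i).IsHomogeneous 1 := by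
      intro i
      refine Fin.cases ?_ (fun j => ?_) i
      · rw [ht0]
        have h1 : (X 0 - ∑ i : Fin (ν + 1), C (s i.succ) * X i.succ : Po (ν + 2) k).IsHomogeneous
            1 := (isHomogeneous_X k _).sub (IsHomogeneous.sum _ _ _ fun i _ => hlin _ _)
        have h2 := (isHomogeneous_C (Fin (ν + 2)) (s 0)⁻¹).mul h1
        rwa [zero_add] at h2
      · rw [hts]
        exact isHomogeneous_X k _
    obtain ⟨Q, hQ⟩ : ∃ Q : Po (ν + 2) k, Q = aeval t P := ⟨_, rfl⟩
    have hQH : Q.IsHomogeneous r := by
      rw [hQ]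
      have h1 := hP.hom.aeval t htH
      rwa [one_mul] at h1
    obtain ⟨y, hy⟩ : ∃ y : Fin (ν + 2) → K, y = Fin.cons (lc s φ) fun i : Fin (ν + 1) => φ i.succ :=
      ⟨_, rfl⟩
    have hy0 : y 0 = lc s φ := by rw [hy, Fin.cons_zero]
    have hys : ∀ i : Fin (ν + 1), y i.succ = φ i.succ := by
      intro i
      rw [hy, Fin.cons_succ]
    have hyQ : aeval y Q = 0 := by
      have h1 : aeval y Q = aeval (fun i => aeval y (t i)) P := by
        rw [hQ, ← AlgHom.comp_apply, comp_aeval]
      rw [h1, ← hφP]
      congr 2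
      funext i
      refine Fin.cases ?_ (fun j => ?_) i
      · rw [ht0, map_mul, map_sub, map_sum, aeval_C, aeval_X, hy0, hs, lc]
        have h2 : ∀ i : Fin (ν + 1), aeval y (C (s i.succ) * X i.succ : Po (ν + 2) k) =
            s i.succ • φ i.succ := by
          intro i
          rw [map_mul, aeval_C, aeval_X, hys, Algebra.smul_def]
        rw [Finset.sum_congr rfl fun i _ => h2 i, add_sub_cancel_right, Algebra.smul_def,
          ← mul_assoc, ← map_mul, inv_mul_cancel₀ h0, map_one, one_mul]
      · rw [hts, aeval_X, hys]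
    have hnd := nat_le hQH
    -- the coefficient of the highest power
    have hcoef : ∀ j, ((finSuccEquiv k (ν + 1) Q).coeff j).totalDegree ≤ r - j := by
      intro j
      by_cases hj : (finSuccEquiv k (ν + 1) Q).coeff j = 0
      · rw [hj, totalDegree_zero]
        exact Nat.zero_le _
      · have h1 := totalDegree_coeff_finSuccEquiv_add_le Q j hj
        have h2 := hQH.totalDegree_le
        omega
    have hval : eval (Fin.cons 1 0 : Fin (ν + 2) → k) Q = (s 0)⁻¹ ^ r := by
      have h1 : eval (Fin.cons 1 0 : Fin (ν + 2) → k) Q =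
          eval (fun i => (s 0)⁻¹ * (Fin.cons 1 0 : Fin (ν + 2) → k) i) P := by
        rw [hQ, aeval_def, algebraMap_eq, ← coe_eval₂Hom, ← RingHom.comp_apply]
        have h2 : (eval (Fin.cons 1 0 : Fin (ν + 2) → k)).comp (eval₂Hom C t) =
            eval (fun i => (s 0)⁻¹ * (Fin.cons 1 0 : Fin (ν + 2) → k) i) := by
          apply ringHom_ext
          · intro a
            rw [RingHom.comp_apply, eval₂Hom_C, eval_C, eval_C]
          · intro i
            rw [RingHom.comp_apply, eval₂Hom_X', eval_X]
            refine Fin.cases ?_ (fun j => ?_) i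
            · rw [ht0, map_mul, map_sub, map_sum, eval_C, eval_X, Fin.cons_zero]
              have h3 : ∀ i : Fin (ν + 1), eval (Fin.cons 1 0 : Fin (ν + 2) → k)
                  (C (s i.succ) * X i.succ) = 0 := by
                intro i
                rw [map_mul, eval_X, Fin.cons_succ, Pi.zero_apply, mul_zero]
              rw [Finset.sum_congr rfl fun i _ => h3 i, Finset.sum_const_zero, sub_zero]
            · rw [hts, eval_X, Fin.cons_succ, Pi.zero_apply, mul_zero]
        rw [h2]
      rw [h1, Pool.Agent.H8.TD.eval_smul hP.hom]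
      have h3 : eval (Fin.cons 1 0 : Fin (ν + 2) → k) P = 1 := by
        rw [eval_e0 hP.hom]
        have h4 : (finSuccEquiv k (ν + 1) P).coeff r = 1 := by
          have h5 : (finSuccEquiv k (ν + 1) P).coeff
              (finSuccEquiv k (ν + 1) P).natDegree = 1 := hP.mon
          rcases (nat_le hP.hom).eq_or_lt with h6 | h6
          · rwa [h6] at h5
          · exfalso
            have h7 : ((finSuccEquiv k (ν + 1) P).coeff
                (finSuccEquiv k (ν + 1) P).natDegree).IsHomogeneous
                (r - (finSuccEquiv k (ν + 1) P).natDegree) :=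
              hP.hom.finSuccEquiv_coeff_isHomogeneous _ _ (by omega)
            rw [h5] at h7
            have h8 := h7.inj_right (isHomogeneous_one (Fin (ν + 1)) k) one_ne_zero
            omega
        rw [h4, map_one]
      rw [h3, mul_one]
    have hCr : aeval (fun i : Fin (ν + 1) => φ i.succ) ((finSuccEquiv k (ν + 1) Q).coeff r) ≠
        0 := by
      have h1 := hcoef r
      rw [Nat.sub_self, Nat.le_zero, totalDegree_eq_zero_iff_eq_C] at h1
      rw [h1, aeval_C]
      rw [eval_e0 hQH, h1, eval_C] at hval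
      rw [hval]
      intro h2
      rw [map_eq_zero] at h2
      exact pow_ne_zero r (inv_ne_zero h0) h2
    refine inx (fun i : Fin (ν + 1) => φ i.succ) B (lc s φ) r M r
      (fun j => (finSuccEquiv k (ν + 1) Q).coeff j) htr hB'
      (fun j => (hcoef j).trans (Nat.sub_le _ _)) hCr ?_
    rw [← hyQ, aeval_fin y Q hnd, hy0]
    refine Finset.sum_congr rfl fun j _ => ?_
    congr 2
    congr 1
    funext i
    exact (hys i).symm

theorem range_upd {n : ℕ} (z : K) (x : Fin (n + 1) → K) (m : Fin (n + 1)) (c : K) :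
    insert z (Set.range (Function.update x m c)) =
      insert c (Set.range (Fin.cons z fun j => x (m.succAbove j) : Fin (n + 1) → K)) := by
  have h1 : Set.range (Function.update x m c) =
      insert c (Set.range fun j => x (m.succAbove j)) := by
    ext w
    rw [Set.mem_insert_iff]
    constructor
    · rintro ⟨i, rfl⟩
      rcases Fin.eq_self_or_eq_succAbove m i with h | ⟨j, h⟩
      · rw [h, Function.update_self]
        exact Or.inl rfl
      · rw [h, Function.update_of_ne (Fin.succAbove_ne m j)]
        exact Or.inr ⟨j, rfl⟩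
    · rintro (rfl | ⟨j, rfl⟩)
      · exact ⟨m, Function.update_self m _ x⟩
      · exact ⟨m.succAbove j, Function.update_of_ne (Fin.succAbove_ne m j) _ x⟩
  rw [h1, Fin.range_cons, Set.insert_comm]

/-- `n` linear forms in all coordinates as algebraic functions of the last ones -/
theorem lin_chain [CharZero k] (hP : Hyp P r) (hr : 1 ≤ r) (φ : Fin (ν + 2) → K) (hφ1 : φ 1 = 1)
    (hφP : aeval φ P = 0) {n : ℕ} (htr : Algebra.trdeg k K = (n + 1 : ℕ)) (z : K) (M : ℕ)
    (hM : ∀ u : Fin n → Fin ν → k, dg k (insert z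
      (Set.range fun i => lc (u i) fun i : Fin ν => φ i.succ.succ)) ≤ M)
    (s : Fin n → Fin (ν + 2) → k) :
    dg k (insert z (Set.range fun i => lc (s i) φ)) ≤ r ^ n * M := by
  classical
  have key : ∀ A : Finset (Fin n), ∀ u : Fin n → Fin ν → k,
      dg k (insert z (Set.range fun i => if i ∈ A then lc (s i) φ else
        lc (u i) fun i : Fin ν => φ i.succ.succ)) ≤ r ^ A.card * M := by
    intro A
    induction A using Finset.induction_on with
    | empty =>
      intro u
      simp only [Finset.notMem_empty, if_false, Finset.card_empty, pow_zero, one_mul]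
      exact hM u
    | insert m A hm ih =>
      intro u
      have e1 : (fun i => if i ∈ insert m A then lc (s i) φ else
          lc (u i) fun i : Fin ν => φ i.succ.succ) =
          Function.update (fun i => if i ∈ A then lc (s i) φ else
            lc (u i) fun i : Fin ν => φ i.succ.succ) m (lc (s m) φ) := by
        funext i
        by_cases hi : i = m
        · subst hi
          rw [Function.update_self, if_pos (Finset.mem_insert_self _ _)]
        · rw [Function.update_of_ne hi]
          simp only [Finset.mem_insert, hi, false_or]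
      rw [e1, Finset.card_insert_of_notMem hm, pow_succ', mul_assoc]
      cases n with
      | zero => exact m.elim0
      | succ n =>
        have e3 : ∀ t : Fin ν → k, dg k (insert z (Set.range (Function.update
            (fun i => if i ∈ A then lc (s i) φ else
              lc (u i) fun i : Fin ν => φ i.succ.succ) m
            (lc t fun i : Fin ν => φ i.succ.succ)))) ≤ r ^ A.card * M := by
          intro t
          have e2 : Function.update (fun i => if i ∈ A then lc (s i) φ else
              lc (u i) fun i : Fin ν => φ i.succ.succ) m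
              (lc t fun i : Fin ν => φ i.succ.succ) = fun i => if i ∈ A then lc (s i) φ else
                lc (Function.update u m t i) fun i : Fin ν => φ i.succ.succ := by
            funext i
            by_cases hi : i = m
            · subst hi
              rw [Function.update_self, if_neg hm, Function.update_self]
            · rw [Function.update_of_ne hi, Function.update_of_ne hi]
          rw [e2]
          exact ih _
        obtain ⟨x, hx⟩ : ∃ x : Fin (n + 1) → K, x = fun i => if i ∈ A then lc (s i) φ else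
          lc (u i) fun i : Fin ν => φ i.succ.succ := ⟨_, rfl⟩
        rw [← hx] at e3 ⊢
        rw [range_upd]
        apply lin_bound hP hr φ hφ1 hφP htr
        intro t
        rw [← range_upd]
        exact e3 t
  have h1 := key Finset.univ fun _ _ => 0
  simp only [Finset.mem_univ, if_true, Finset.card_univ, Fintype.card_fin] at h1
  exact h1

end alg

theorem pf_EQN (hCHN : Pool.Agent.H18.EDB.T_CHN) : Pool.Agent.H18.EDB.T_EQN := by
  intro ν r d e m P F K _ _ ξ τ Y s hν hP hF hS hFd he he1 hY hY1
  have hr : 1 ≤ r := by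
    by_contra hr0
    have hr0' : r = 0 := by omega
    apply hP.irr.not_isUnit
    have h1 : P.totalDegree = 0 := by
      have := hP.hom.totalDegree_le
      omega
    rw [totalDegree_eq_zero_iff_eq_C] at h1
    rw [h1, isUnit_map_iff, isUnit_iff_ne_zero]
    intro h0
    rw [h0, C_0] at h1
    exact hP.irr.ne_zero h1
  obtain ⟨n, rfl⟩ : ∃ n, ν = n + 1 := ⟨ν - 1, by omega⟩
  obtain ⟨f, hf⟩ := iter_algHomX τ m
  have hfξ : ∀ i, pn τ ξ m i = f (ξ i) := by
    intro i
    rw [hf]
    rfl
  have halg := alg_muN hFd.gp hP f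
  obtain ⟨μ, hμ⟩ : ∃ μ : Fin (n + 1) → K, μ = fun i => pn τ ξ m i.succ.succ := ⟨_, rfl⟩
  have hμf : (fun i : Fin (n + 1) => f (ξ i.succ.succ)) = μ := by
    rw [hμ]
    exact funext fun i => (hfξ _).symm
  rw [hμf] at halg
  obtain ⟨s₀, hs₀⟩ : ∃ s₀, s₀ = s (Fin.last n) := ⟨_, rfl⟩
  obtain ⟨E, Y', Cf, hE, hCf, hcop, hCf0, hirr, hrel, hdeg, -⟩ :=
    hCHN (n + 1) Qb K μ (lc s₀ ξ) (by omega) hFd.gp.trd halg
  have hφP : aeval (pn τ ξ m) P = 0 := by
    have h1 : (pn τ ξ m) = fun i => f (ξ i) := funext hfξ
    have h2 : aeval (fun i => f (ξ i)) P = f (aeval ξ P) := by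
      rw [← AlgHom.comp_apply, comp_aeval]
    rw [h1, h2, aeval_P hFd.gp hP, map_zero]
  have hdgμ : dg Qb (Set.range μ) ≤ e ^ m * r := by
    have h1 : Set.range μ = τ^[m] '' (Set.range fun i : Fin (n + 1) => ξ i.succ.succ) := by
      rw [hμ, ← Set.range_comp]
      rfl
    rw [h1, Pool.Agent.H8.TD.Al.pbk Qb K τ m]
    exact Nat.mul_le_mul (Nat.pow_le_pow_left he m) (dg_last hFd.gp hP)
  have hYE : Y * E ≤ r ^ n * (Y' * dg Qb (Set.range μ)) := by
    obtain ⟨B, hB⟩ : ∃ B, B = Y' * dg Qb (Set.range μ) / E := ⟨_, rfl⟩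
    have h1 : ∀ u : Fin n → Fin (n + 1) → Qb, dg Qb (insert (lc s₀ ξ)
        (Set.range fun i => lc (u i) μ)) ≤ B := by
      intro u
      rw [hB, Nat.le_div_iff_mul_le (by omega)]
      exact hdeg u
    rw [hμ] at h1
    have h2 := lin_chain hP hr (pn τ ξ m) (pn_one hFd m) hφP hFd.gp.trd (lc s₀ ξ) B h1
      (fun i => s i.castSucc)
    have h3 : dgm Qb (pn τ ξ m) ξ (n + 1 - 1) s = dg Qb (insert (lc s₀ ξ)
        (Set.range fun i : Fin n => lc (s i.castSucc) (pn τ ξ m))) := by
      unfold dgm
      congr 1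
      ext w
      rw [Set.mem_insert_iff]
      constructor
      · rintro ⟨i, rfl⟩
        refine Fin.lastCases ?_ (fun j => ?_) i
        · refine Or.inl ?_
          rw [hs₀]
          show lc (s (Fin.last n)) (if ((Fin.last n : Fin (n + 1)) : ℕ) < n + 1 - 1 then _ else _)
            = _
          rw [if_neg (by simp)]
        · refine Or.inr ⟨j, ?_⟩
          show _ = lc (s j.castSucc) (if ((j.castSucc : Fin (n + 1)) : ℕ) < n + 1 - 1 then _ else _)
          rw [if_pos (by simp)]
      · rintro (rfl | ⟨j, rfl⟩)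
        · refine ⟨Fin.last n, ?_⟩
          show lc (s (Fin.last n)) (if ((Fin.last n : Fin (n + 1)) : ℕ) < n + 1 - 1 then _ else _)
            = _
          rw [if_neg (by simp), hs₀]
        · refine ⟨j.castSucc, ?_⟩
          show lc (s j.castSucc) (if ((j.castSucc : Fin (n + 1)) : ℕ) < n + 1 - 1 then _ else _) = _
          rw [if_pos (by simp)]
    have h4 : Y ≤ r ^ n * B := hY.trans (h3.le.trans h2)
    have h7 : B * E ≤ Y' * dg Qb (Set.range μ) := by
      rw [hB]
      exact Nat.div_mul_le_self _ _
    calc Y * E ≤ r ^ n * B * E := Nat.mul_le_mul_right _ h4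
      _ = r ^ n * (B * E) := by ring
      _ ≤ _ := Nat.mul_le_mul_left _ h7
  refine ⟨E, Y', Cf, s₀, hE, hCf, hcop, hCf0, hirr, ?_, ?_⟩
  · have he0 : (0 : ℝ) < (e : ℝ) ^ m := by
      have : (0 : ℝ) < e := by exact_mod_cast he1
      positivity
    have hr0 : (0 : ℝ) < r := by
      have h1 : (1 : ℝ) ≤ r := by exact_mod_cast hr
      linarith
    have h1 : Y * E ≤ r ^ n * (Y' * (e ^ m * r)) :=
      hYE.trans (Nat.mul_le_mul_left _ (Nat.mul_le_mul_left _ hdgμ))
    have h2 : (Y : ℝ) * E ≤ (r : ℝ) ^ n * (Y' * ((e : ℝ) ^ m * r)) := by exact_mod_cast h1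
    rw [mul_div_assoc', div_le_iff₀ (by positivity)]
    calc (E : ℝ) * Y = Y * E := mul_comm _ _
      _ ≤ _ := h2
      _ = _ := by ring
  · rw [← hrel]
    refine Finset.sum_congr rfl fun j _ => ?_
    congr 3
    funext i
    refine Fin.cases ?_ (fun i' => ?_) i
    · rw [Fin.cons_zero]
      exact pn_one hFd m
    · rw [Fin.cons_succ, hμ]

end Pool.Agent.H1.EDB
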